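import Mathlib
import Pool.Agent.H.MP_cf3fbb_gt.A

set_option autoImplicit false

namespace Pool.Agent.Results.MP_cf3fbb_gt.Scale

open Set Filter Topology Cardinal Pool.Agent.H.MP_5382b1_gt Pool.Agent.H.MP_cf3fbb_gt

/-- The bounding number. -/
noncomputable def bnum : Cardinal.{0} :=
  sInf {c | ∃ F : Set (ℕ → ℕ), (¬ ∃ g : ℕ → ℕ, ∀ f ∈ F, ∀ᶠ n in atTop, f n ≤ g n) ∧ #F = c}

def OpenCover {Z : Type} [TopologicalSpace Z] (U : Set (Set Z)) : Prop :=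
  (∀ u ∈ U, IsOpen u) ∧ ⋃₀ U = Set.univ ∧ Set.univ ∉ U

def GammaCover {Z : Type} [TopologicalSpace Z] (U : Set (Set Z)) : Prop :=
  OpenCover U ∧ U.Infinite ∧ ∀ z, {u ∈ U | z ∉ u}.Finite

def Hurewicz (Z : Type) [TopologicalSpace Z] : Prop :=
  ∀ U : ℕ → Set (Set Z), (∀ n, OpenCover (U n) ∧ ∀ F ⊆ U n, F.Finite → ⋃₀ F ≠ Set.univ) →
    ∃ F : ℕ → Set (Set Z), (∀ n, F n ⊆ U n ∧ (F n).Finite) ∧ GammaCover (range fun n => ⋃₀ F n)

theorem result (h : continuum.{0} = aleph 1 ∨ bnum = continuum) :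
    ∃ X B : Set ℝ, X ⊆ B ∧ Hurewicz X ∧ MeasurableSet B ∧
      (∃ K : ℕ → ℕ → Set ℝ, (∀ n m, IsClosed (K n m)) ∧ B = ⋂ n, ⋃ m, K n m) ∧
      ¬ ∃ F : Set ℝ, IsSigmaCompact F ∧ X ⊆ F ∧ F ⊆ B := by
  classical
  obtain ⟨X, h1, h2, h3⟩ := main fun F hF => by
    rcases h with h | h
    · rw [h, ← succ_aleph0, Order.lt_succ_iff, le_aleph0_iff_set_countable] at hF
      obtain ⟨f, hf⟩ := (hF.insert 0).exists_eq_range (insert_nonempty _ _)
      refine ⟨fun n => (Finset.range (n + 1)).sup fun i => f i n, fun g hg => ?_⟩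
      obtain ⟨i, rfl⟩ := hf.le (Or.inr hg)
      filter_upwards [eventually_ge_atTop i] with n hn
      exact Finset.le_sup (f := fun i => f i n) (Finset.mem_range.2 (Nat.lt_succ_of_le hn))
    · by_contra h'
      exact hF.not_ge (h.ge.trans (csInf_le' ⟨F, h', rfl⟩))
  obtain ⟨φ, φ1, φ2, -⟩ := Pool.Agent.H.MP_919a9a_lc.emb
  let ψ : V × V → ℝ := fun z => φ fun n => if n % 2 = 0 then z.1 (n / 2) else z.2 (n / 2)
  have ψ1 : Continuous ψ := φ1.comp (continuous_pi fun n => by split_ifs <;> fun_prop)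
  have ψ2 : Function.Injective ψ := fun z w h => Prod.ext
    (funext fun n => by simpa using congrFun (φ2 h) (2 * n)) (funext fun n => by
      have := congrFun (φ2 h) (2 * n + 1)
      rwa [if_neg (by omega), if_neg (by omega), show (2 * n + 1) / 2 = n by omega] at this)
  have hψ := ψ1.isClosedEmbedding ψ2
  have h4 : ∃ K : ℕ → ℕ → Set ℝ, (∀ n m, IsClosed (K n m)) ∧
      ψ '' (Fn ×ˢ Set.univ ∪ Set.univ ×ˢ Fnᶜ) = ⋂ n, ⋃ m, K n m := by
    refine ⟨fun n m => ψ '' ({z | ∀ j ≥ m, z.1 j ≠ 1} ∪ {z | n ≤ m ∧ z.2 m = 1}), fun n m =>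
      hψ.isClosedMap _ (IsClosed.union ?_ (isClosed_const.inter
        (isClosed_eq (by fun_prop) continuous_const))), ?_⟩
    · simp only [ofPred_forall]
      exact isClosed_iInter fun j => isClosed_iInter fun _ =>
        (isClosed_discrete {1}ᶜ).preimage ((continuous_apply j).comp continuous_fst)
    · simp only [← image_iUnion]
      rw [← ψ2.injOn.image_iInter_eq]
      congr 1
      ext z
      simp only [Fn, mem_union, mem_prod, mem_ofPred_eq, mem_univ, and_true, true_and, mem_compl_iff,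
        mem_iInter, mem_iUnion, exists_or]
      rw [← Set.Infinite, ← Nat.frequently_atTop_iff_infinite, frequently_atTop, forall_or_left,
        ← not_infinite, ← Nat.frequently_atTop_iff_infinite, not_frequently, eventually_atTop]
  refine ⟨ψ '' X, _, image_mono h1, fun 𝒰 h𝒰 => ?_, ?_, h4, ?_⟩
  · let j : X → ψ '' X := fun z => ⟨ψ z, z, z.2, rfl⟩
    let 𝒱 : ℕ → Set (Set ℝ) := fun n => {v | IsOpen v ∧ Subtype.val ⁻¹' v ∈ 𝒰 n}
    obtain ⟨K, k1, k2⟩ := h2 (fun n => ψ ⁻¹' ⋃₀ 𝒱 n) fun n =>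
      ⟨(isOpen_sUnion fun _ hv => hv.1).preimage ψ1, fun z hz => by
        obtain ⟨u, hu, h3⟩ := (h𝒰 n).1.2.1.ge (mem_univ ⟨ψ z, z, hz, rfl⟩)
        obtain ⟨v, h4, rfl⟩ := isOpen_induced_iff.1 ((h𝒰 n).1.1 u hu)
        exact ⟨v, ⟨h4, hu⟩, h3⟩⟩
    have k3 : ∀ n, ∃ S ⊆ 𝒱 n, S.Finite ∧ ψ '' K n ⊆ ⋃ v ∈ S, v := fun n =>
      ((k1 n).1.isCompact.image ψ1).elim_finite_subcover_image (fun _ hv => hv.1) (by
        rw [← sUnion_eq_biUnion]
        exact image_subset_iff.2 (k1 n).2)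
    choose S k4 k5 k6 using k3
    have k7 : ∀ n, (Subtype.val ⁻¹' ·) '' S n ⊆ 𝒰 n := by
      rintro n _ ⟨v, hv, rfl⟩
      exact (k4 n hv).2
    have k8 : ∀ z : ψ '' X, ∀ᶠ n in atTop, z ∈ ⋃₀ ((Subtype.val ⁻¹' ·) '' S n) := by
      rintro ⟨_, z, hz, rfl⟩
      filter_upwards [k2 z hz] with n hn
      obtain ⟨v, hv, l4⟩ := mem_iUnion₂.1 (k6 n ⟨z, hn, rfl⟩)
      exact ⟨_, ⟨v, hv, rfl⟩, l4⟩
    have k9 := fun n => (h𝒰 n).2 _ (k7 n) ((k5 n).image _)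
    refine ⟨_, fun n => ⟨k7 n, (k5 n).image _⟩, ⟨?_, eq_univ_of_forall fun z => ?_, ?_⟩,
      fun hf => ?_, fun z => ?_⟩
    · rintro _ ⟨n, rfl⟩
      exact isOpen_sUnion fun u hu => (h𝒰 n).1.1 u (k7 n hu)
    · obtain ⟨n, hn⟩ := (k8 z).exists
      exact ⟨_, ⟨n, rfl⟩, hn⟩
    · rintro ⟨n, hn⟩
      exact k9 n hn
    · have k10 : ∀ u ∈ range fun n => ⋃₀ ((Subtype.val ⁻¹' ·) '' S n), ∃ z : ψ '' X, z ∉ u := by
        rintro _ ⟨n, rfl⟩
        exact (ne_univ_iff_exists_notMem _).1 (k9 n)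
      choose z hz using k10
      have := hf.to_subtype
      obtain ⟨n, hn⟩ := (eventually_all.2 fun u : range fun n => ⋃₀ ((Subtype.val ⁻¹' ·) '' S n) =>
        k8 (z u.1 u.2)).exists
      exact hz _ ⟨n, rfl⟩ (hn ⟨_, n, rfl⟩)
    · have k10 := k8 z
      rw [← Nat.cofinite_eq_atTop] at k10
      refine (Finite.image (fun n => ⋃₀ ((Subtype.val ⁻¹' ·) '' S n)) k10).subset ?_
      rintro _ ⟨⟨n, rfl⟩, hn⟩
      exact ⟨n, hn, rfl⟩
  · obtain ⟨K, k1, k2⟩ := h4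
    exact k2 ▸ MeasurableSet.iInter fun n => MeasurableSet.iUnion fun m => (k1 n m).measurableSet
  · rintro ⟨_, ⟨K, hK, rfl⟩, k1, k2⟩
    refine h3 (fun n => ψ ⁻¹' K n) (fun n => ⟨(hK n).isClosed.preimage ψ1, fun z hz => ?_⟩)
      fun z hz => by simpa using k1 ⟨z, hz, rfl⟩
    exact ψ2.mem_set_image.1 (k2 (mem_iUnion.2 ⟨n, hz⟩))

end Pool.Agent.Results.MP_cf3fbb_gt.Scale
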